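import Pool.Agent.Helper32_NJ.Stmts

set_option autoImplicit false

/-!
# Squad NJ, module TWS: the twisting factor
-/

namespace Pool.Agent.NJ.H4

open Pool.Agent.NJ Polynomial

theorem sqf_dec (n : ℕ) : ∀ δ : ℚ[X], δ ≠ 0 → δ.natDegree ≤ n →
    ∃ s m : ℚ[X], Squarefree m ∧ δ = s ^ 2 * m := by
  induction n with
  | zero =>
    intro δ hδ hd
    refine ⟨1, δ, ?_, by ring⟩
    have : IsUnit δ := by
      rw [Polynomial.isUnit_iff_degree_eq_zero, Polynomial.degree_eq_natDegree hδ]
      exact_mod_cast Nat.le_zero.1 hd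
    exact this.squarefree
  | succ n ih =>
    intro δ hδ hd
    by_cases hs : Squarefree δ
    · exact ⟨1, δ, hs, by ring⟩
    · unfold Squarefree at hs
      push Not at hs
      obtain ⟨p, ⟨q, hq⟩, hp⟩ := hs
      have hp0 : p ≠ 0 := by rintro rfl; simp at hq; exact hδ hq
      have hq0 : q ≠ 0 := by rintro rfl; simp at hq; exact hδ hq
      have hpd : 0 < p.natDegree := by
        rcases Nat.eq_zero_or_pos p.natDegree with h | h
        · exfalso
          apply hp
          rw [Polynomial.isUnit_iff_degree_eq_zero, Polynomial.degree_eq_natDegree hp0, h]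
          rfl
        · exact h
      have hdeg : δ.natDegree = p.natDegree + p.natDegree + q.natDegree := by
        rw [hq, natDegree_mul (mul_ne_zero hp0 hp0) hq0, natDegree_mul hp0 hp0]
      obtain ⟨s, m, hm, hqs⟩ := ih q hq0 (by omega)
      exact ⟨p * s, m, hm, by rw [hq, hqs]; ring⟩

/-- A complex root of a linear polynomial and of `m`. -/
theorem lin_dvd {x m : ℚ[X]} (hx : x.natDegree = 1) {t : ℂ} (h1 : aeval t x = 0)
    (h2 : aeval t m = 0) : x ∣ m := by
  obtain ⟨a, ha, b, rfl⟩ := natDegree_eq_one.1 hx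
  have ha' : (a : ℂ) ≠ 0 := by exact_mod_cast ha
  have ht : t = ((-b / a : ℚ) : ℂ) := by
    simp only [map_add, map_mul, aeval_C, aeval_X, eq_ratCast] at h1
    push_cast
    rw [eq_div_iff ha']
    linear_combination h1
  have hm : m.eval (-b / a) = 0 := by
    have h3 : aeval ((algebraMap ℚ ℂ) (-b / a)) m = algebraMap ℚ ℂ (m.eval (-b / a)) := by
      rw [aeval_algebraMap_apply]
      rfl
    rw [ht] at h2
    have h4 : algebraMap ℚ ℂ (m.eval (-b / a)) = 0 := by
      rw [← h3]; exact h2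
    exact (map_eq_zero _).1 h4
  have hd : X - C (-b / a) ∣ m := dvd_iff_isRoot.2 hm
  have he : C a * X + C b = C a * (X - C (-b / a)) := by
    rw [mul_sub, ← C_mul, mul_div_cancel₀ _ ha, C_neg]
    ring
  rw [he]
  exact (IsUnit.mul_left_dvd (isUnit_C.2 (isUnit_iff_ne_zero.2 ha))).2 hd

theorem peel {x m : ℚ[X]} (hx : x.natDegree = 1) (hm : Squarefree m) :
    ∃ m1, (m = x * m1 ∨ m = m1) ∧ Squarefree m1 ∧
      ∀ t : ℂ, aeval t m1 = 0 → aeval t m = 0 ∧ aeval t x ≠ 0 := by
  have hxu : ¬ IsUnit x := by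
    intro h
    have := natDegree_eq_zero_of_isUnit h
    omega
  by_cases hd : x ∣ m
  · obtain ⟨m1, rfl⟩ := hd
    refine ⟨m1, Or.inl rfl, hm.of_mul_right, ?_⟩
    intro t ht
    refine ⟨by rw [map_mul, ht, mul_zero], fun h => ?_⟩
    have := lin_dvd hx h ht
    obtain ⟨r, rfl⟩ := this
    exact hxu (hm x ⟨r, by ring⟩)
  · exact ⟨m, Or.inr rfl, hm, fun t ht => ⟨ht, fun h => hd (lin_dvd hx h ht)⟩⟩

theorem const {m : ℚ[X]} (hm : m ≠ 0) (h : ∀ t : ℂ, aeval t m ≠ 0) :
    ∃ k : ℚ, k ≠ 0 ∧ m = C k := by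
  have hd : m.degree = 0 := by
    by_contra hd
    obtain ⟨t, ht⟩ := IsAlgClosed.exists_aeval_eq_zero ℂ m hd
    exact h t ht
  refine ⟨m.coeff 0, ?_, eq_C_of_degree_eq_zero hd⟩
  intro h0
  apply hm
  rw [eq_C_of_degree_eq_zero hd, h0, C_0]

theorem root1 {x : ℚ[X]} (hx : x.natDegree = 1) : ∃ t : ℂ, aeval t x = 0 := by
  apply IsAlgClosed.exists_aeval_eq_zero ℂ x
  intro h
  have := natDegree_eq_zero_iff_degree_le_zero.2 h.le
  omega

theorem odd_root {δ s m : ℚ[X]} (hδ : δ ≠ 0) (hm : Squarefree m) (he : δ = s ^ 2 * m) (t : ℂ)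
    (ht : aeval t m = 0) : Odd ((δ.map (algebraMap ℚ ℂ)).rootMultiplicity t) := by
  have hm0 : m ≠ 0 := by rintro rfl; simp at he; exact hδ he
  have hs0 : s ≠ 0 := by rintro rfl; simp at he; exact hδ he
  have hinj : Function.Injective (algebraMap ℚ ℂ) := (algebraMap ℚ ℂ).injective
  have hm1 : m.map (algebraMap ℚ ℂ) ≠ 0 := (Polynomial.map_ne_zero_iff hinj).2 hm0
  have hs1 : s.map (algebraMap ℚ ℂ) ≠ 0 := (Polynomial.map_ne_zero_iff hinj).2 hs0
  have hsep : (m.map (algebraMap ℚ ℂ)).Separable :=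
    (PerfectField.separable_iff_squarefree.2 hm).map
  have h1 : (m.map (algebraMap ℚ ℂ)).rootMultiplicity t ≤ 1 :=
    rootMultiplicity_le_one_of_separable hsep t
  have h2 : 0 < (m.map (algebraMap ℚ ℂ)).rootMultiplicity t := by
    rw [rootMultiplicity_pos hm1]
    show eval t (m.map (algebraMap ℚ ℂ)) = 0
    rw [eval_map_algebraMap]
    exact ht
  rw [he, Polynomial.map_mul, Polynomial.map_pow,
    rootMultiplicity_mul (mul_ne_zero (pow_ne_zero 2 hs1) hm1), pow_two,
    rootMultiplicity_mul (mul_ne_zero hs1 hs1)]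
  exact ⟨(s.map (algebraMap ℚ ℂ)).rootMultiplicity t, by omega⟩

theorem card2 {F : Finset ℂ} {a b : ℂ} (h : a ≠ b) (ha : a ∈ F) (hb : b ∈ F) : 2 ≤ F.card := by
  rw [← Finset.card_pair h]
  exact Finset.card_le_card (by
    intro u hu
    simp only [Finset.mem_insert, Finset.mem_singleton] at hu
    rcases hu with rfl | rfl <;> assumption)

/-- two linear forms -/
theorem two {x y m : ℚ[X]} (hx : x.natDegree = 1) (hy : y.natDegree = 1)
    (hm : Squarefree m) (hr : ∀ t : ℂ, aeval t m = 0 → aeval t x = 0 ∨ aeval t y = 0) :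
    ∃ k : ℚ, k ≠ 0 ∧ (m = C k ∨ m = C k * x ∨ m = C k * y ∨ m = C k * (x * y)) := by
  obtain ⟨m1, e1, s1, r1⟩ := peel hx hm
  obtain ⟨m2, e2, s2, r2⟩ := peel hy s1
  obtain ⟨k, hk, hk'⟩ := const s2.ne_zero (by
    intro t ht
    obtain ⟨h1, h2⟩ := r2 t ht
    obtain ⟨h3, h4⟩ := r1 t h1
    rcases hr t h3 with h | h
    · exact h4 h
    · exact h2 h)
  refine ⟨k, hk, ?_⟩
  rcases e1 with e1 | e1 <;> rcases e2 with e2 | e2 <;> rw [e1, e2, hk']
  · right; right; right; ring
  · right; left; ring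
  · right; right; left; ring
  · left; rfl

/-- three linear forms -/
theorem three {x y z m : ℚ[X]} (hx : x.natDegree = 1) (hy : y.natDegree = 1)
    (hz : z.natDegree = 1) (hm : Squarefree m)
    (hr : ∀ t : ℂ, aeval t m = 0 → aeval t x = 0 ∨ aeval t y = 0 ∨ aeval t z = 0) :
    ∃ k : ℚ, k ≠ 0 ∧ (m = C k * x ∨ m = C k * y ∨ m = C k * z ∨ m = C k * (x * y * z) ∨
      Even m.natDegree) := by
  obtain ⟨m1, e1, s1, r1⟩ := peel hx hm
  obtain ⟨m2, e2, s2, r2⟩ := peel hy s1
  obtain ⟨m3, e3, s3, r3⟩ := peel hz s2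
  obtain ⟨k, hk, hk'⟩ := const s3.ne_zero (by
    intro t ht
    obtain ⟨h1, h2⟩ := r3 t ht
    obtain ⟨h3, h4⟩ := r2 t h1
    obtain ⟨h5, h6⟩ := r1 t h3
    rcases hr t h5 with h | h | h
    · exact h6 h
    · exact h4 h
    · exact h2 h)
  refine ⟨k, hk, ?_⟩
  have hx0 : x ≠ 0 := by rintro rfl; simp at hx
  have hy0 : y ≠ 0 := by rintro rfl; simp at hy
  have hz0 : z ≠ 0 := by rintro rfl; simp at hz
  have hk0 : (C k : ℚ[X]) ≠ 0 := C_ne_zero.2 hk
  rcases e1 with e1 | e1 <;> rcases e2 with e2 | e2 <;> rcases e3 with e3 | e3 <;>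
    rw [e1, e2, e3, hk']
  · right; right; right; left; ring
  · right; right; right; right
    rw [natDegree_mul hx0 (mul_ne_zero hy0 hk0), natDegree_mul hy0 hk0, hx, hy, natDegree_C]
    exact ⟨1, rfl⟩
  · right; right; right; right
    rw [natDegree_mul hx0 (mul_ne_zero hz0 hk0), natDegree_mul hz0 hk0, hx, hz, natDegree_C]
    exact ⟨1, rfl⟩
  · left; ring
  · right; right; right; right
    rw [natDegree_mul hy0 (mul_ne_zero hz0 hk0), natDegree_mul hz0 hk0, hy, hz, natDegree_C]
    exact ⟨1, rfl⟩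
  · right; left; ring
  · right; right; left; ring
  · right; right; right; right
    rw [natDegree_C]
    exact ⟨0, rfl⟩

/-- The module TWS. -/
theorem tws : TWSStmt := by
  intro δ x y z hδ hx hy hz hsum hcop hnc dx dy dz hfew
  obtain ⟨s, m, hm, he⟩ := sqf_dec δ.natDegree δ hδ le_rfl
  have hs0 : s ≠ 0 := by rintro rfl; simp at he; exact hδ he
  have hm0 : m ≠ 0 := by rintro rfl; simp at he; exact hδ he
  have hodd := fun t ht => odd_root hδ hm he t ht
  obtain ⟨u, v, huv⟩ := hcop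
  -- no common roots
  have nxy : ∀ t : ℂ, aeval t x = 0 → aeval t y = 0 → False := by
    intro t h1 h2
    have := congrArg (aeval t) huv
    rw [map_add, map_mul, map_mul, h1, h2, map_one] at this
    simp at this
  have hsm : ∀ t : ℂ, aeval t x + aeval t y + aeval t z = 0 := by
    intro t
    have := congrArg (aeval t) hsum
    rwa [map_add, map_add, map_zero] at this
  have nxz : ∀ t : ℂ, aeval t x = 0 → aeval t z = 0 → False := by
    intro t h1 h2
    have := hsm t
    rw [h1, h2] at this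
    exact nxy t h1 (by simpa using this)
  have nyz : ∀ t : ℂ, aeval t y = 0 → aeval t z = 0 → False := by
    intro t h1 h2
    have := hsm t
    rw [h1, h2] at this
    exact nxy t (by simpa using this) h1
  have hprod : ∀ t : ℂ, aeval t x = 0 ∨ aeval t y = 0 ∨ aeval t z = 0 →
      aeval t (x * y * z) = 0 := by
    intro t h
    rw [map_mul, map_mul]
    rcases h with h | h | h <;> rw [h] <;> ring
  -- constants
  have cst : ∀ p : ℚ[X], p ≠ 0 → p.natDegree = 0 → ∃ c : ℚ, c ≠ 0 ∧ p = C c := by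
    intro p hp hd
    refine ⟨p.coeff 0, ?_, eq_C_of_natDegree_eq_zero hd⟩
    intro h0
    apply hp
    rw [eq_C_of_natDegree_eq_zero hd, h0, C_0]
  -- the case of two linear forms
  have caseB : ∀ p q : ℚ[X], p.natDegree = 1 → q.natDegree = 1 →
      (∀ t : ℂ, aeval t p = 0 → aeval t q = 0 → False) →
      (∀ t : ℂ, aeval t p = 0 ∨ aeval t q = 0 → aeval t (x * y * z) = 0) →
      ¬ (x.natDegree = y.natDegree ∧ y.natDegree = z.natDegree ∧
      Even (δ.natDegree + x.natDegree)) →
      ∃ k : ℚ, k ≠ 0 ∧ (m = C k ∨ m = C k * p ∨ m = C k * q ∨ m = C k * (p * q)) := by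
    intro p q hp hq hpq hin hne
    apply two hp hq hm
    intro t ht
    by_contra hcon
    push Not at hcon
    obtain ⟨a, ha⟩ := root1 hp
    obtain ⟨b, hb⟩ := root1 hq
    have hab : a ≠ b := by rintro rfl; exact hpq a ha hb
    have hta : a ≠ t := by rintro rfl; exact hcon.1 ha
    have htb : b ≠ t := by rintro rfl; exact hcon.2 hb
    have h1 := (hfew {a, b, t} (by
      intro w hw
      simp only [Finset.mem_insert, Finset.mem_singleton] at hw
      rcases hw with rfl | rfl | rfl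
      · exact Or.inl (hin _ (Or.inl ha))
      · exact Or.inl (hin _ (Or.inr hb))
      · exact Or.inr (hodd _ ht))).2 hne
    rw [Finset.card_insert_of_notMem (by simp [hab, hta]), Finset.card_pair htb] at h1
    omega
  have hCk : ∀ {k c : ℚ}, c ≠ 0 → (C k : ℚ[X]) = C (k / c) * C c := by
    intro k c hc
    rw [← C_mul, div_mul_cancel₀ _ hc]
  rcases Nat.le_one_iff_eq_zero_or_eq_one.1 dx with ex | ex
  · -- x constant
    have ey : y.natDegree = 1 := by
      rcases Nat.le_one_iff_eq_zero_or_eq_one.1 dy with h | h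
      · exact absurd ⟨ex, h⟩ hnc
      · exact h
    obtain ⟨c, hc, hxc⟩ := cst x hx ex
    have ez : z.natDegree = 1 := by
      have : z = -(y + C c) := by rw [← hxc]; linear_combination hsum
      rw [this, natDegree_neg, natDegree_add_C, ey]
    obtain ⟨k, hk, hh⟩ := caseB y z ey ez nyz
      (fun t h => hprod t (Or.inr h)) (fun h => by omega)
    rcases hh with hh | hh | hh | hh
    · refine ⟨k / c, s, div_ne_zero hk hc, hs0, Or.inl ?_⟩
      rw [he, hh, hCk hc, ← hxc]; ring
    · exact ⟨k, s, hk, hs0, Or.inr (Or.inl (by rw [he, hh]; ring))⟩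
    · exact ⟨k, s, hk, hs0, Or.inr (Or.inr (Or.inl (by rw [he, hh]; ring)))⟩
    · refine ⟨k / c, s, div_ne_zero hk hc, hs0, Or.inr (Or.inr (Or.inr ?_))⟩
      rw [he, hh, hCk hc, ← hxc]; ring
  rcases Nat.le_one_iff_eq_zero_or_eq_one.1 dy with ey | ey
  · -- y constant
    obtain ⟨c, hc, hyc⟩ := cst y hy ey
    have ez : z.natDegree = 1 := by
      have : z = -(x + C c) := by rw [← hyc]; linear_combination hsum
      rw [this, natDegree_neg, natDegree_add_C, ex]
    obtain ⟨k, hk, hh⟩ := caseB x z ex ez nxz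
      (fun t h => hprod t (by rcases h with h | h <;> simp [h])) (fun h => by omega)
    rcases hh with hh | hh | hh | hh
    · refine ⟨k / c, s, div_ne_zero hk hc, hs0, Or.inr (Or.inl ?_)⟩
      rw [he, hh, hCk hc, ← hyc]; ring
    · exact ⟨k, s, hk, hs0, Or.inl (by rw [he, hh]; ring)⟩
    · exact ⟨k, s, hk, hs0, Or.inr (Or.inr (Or.inl (by rw [he, hh]; ring)))⟩
    · refine ⟨k / c, s, div_ne_zero hk hc, hs0, Or.inr (Or.inr (Or.inr ?_))⟩
      rw [he, hh, hCk hc, ← hyc]; ring
  rcases Nat.le_one_iff_eq_zero_or_eq_one.1 dz with ez | ez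
  · -- z constant
    obtain ⟨c, hc, hzc⟩ := cst z hz ez
    obtain ⟨k, hk, hh⟩ := caseB x y ex ey nxy
      (fun t h => hprod t (by rcases h with h | h <;> simp [h])) (fun h => by omega)
    rcases hh with hh | hh | hh | hh
    · refine ⟨k / c, s, div_ne_zero hk hc, hs0, Or.inr (Or.inr (Or.inl ?_))⟩
      rw [he, hh, hCk hc, ← hzc]; ring
    · exact ⟨k, s, hk, hs0, Or.inl (by rw [he, hh]; ring)⟩
    · exact ⟨k, s, hk, hs0, Or.inr (Or.inl (by rw [he, hh]; ring))⟩
    · refine ⟨k / c, s, div_ne_zero hk hc, hs0, Or.inr (Or.inr (Or.inr ?_))⟩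
      rw [he, hh, hCk hc, ← hzc]; ring
  · -- three linear forms
    obtain ⟨a, ha⟩ := root1 ex
    obtain ⟨b, hb⟩ := root1 ey
    obtain ⟨c, hc⟩ := root1 ez
    have hab : a ≠ b := by rintro rfl; exact nxy a ha hb
    have hac : a ≠ c := by rintro rfl; exact nxz a ha hc
    have hbc : b ≠ c := by rintro rfl; exact nyz b hb hc
    have hev : Even (δ.natDegree + x.natDegree) := by
      by_contra hne
      have h1 := (hfew {a, b, c} (by
        intro w hw
        simp only [Finset.mem_insert, Finset.mem_singleton] at hw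
        rcases hw with rfl | rfl | rfl
        · exact Or.inl (hprod _ (Or.inl ha))
        · exact Or.inl (hprod _ (Or.inr (Or.inl hb)))
        · exact Or.inl (hprod _ (Or.inr (Or.inr hc))))).2 (fun h => hne h.2.2)
      rw [Finset.card_insert_of_notMem (by simp [hab, hac]), Finset.card_pair hbc] at h1
      omega
    obtain ⟨k, hk, hh⟩ := three ex ey ez hm (by
      intro t ht
      by_contra hcon
      push Not at hcon
      have hta : a ≠ t := by rintro rfl; exact hcon.1 ha
      have htb : b ≠ t := by rintro rfl; exact hcon.2.1 hb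
      have htc : c ≠ t := by rintro rfl; exact hcon.2.2 hc
      have h1 := (hfew {a, b, c, t} (by
        intro w hw
        simp only [Finset.mem_insert, Finset.mem_singleton] at hw
        rcases hw with rfl | rfl | rfl | rfl
        · exact Or.inl (hprod _ (Or.inl ha))
        · exact Or.inl (hprod _ (Or.inr (Or.inl hb)))
        · exact Or.inl (hprod _ (Or.inr (Or.inr hc)))
        · exact Or.inr (hodd _ ht))).1
      rw [Finset.card_insert_of_notMem (by simp [hab, hac, hta]),
        Finset.card_insert_of_notMem (by simp [hbc, htb]), Finset.card_pair htc] at h1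
      omega)
    rcases hh with hh | hh | hh | hh | hh
    · exact ⟨k, s, hk, hs0, Or.inl (by rw [he, hh]; ring)⟩
    · exact ⟨k, s, hk, hs0, Or.inr (Or.inl (by rw [he, hh]; ring))⟩
    · exact ⟨k, s, hk, hs0, Or.inr (Or.inr (Or.inl (by rw [he, hh]; ring)))⟩
    · exact ⟨k, s, hk, hs0, Or.inr (Or.inr (Or.inr (by rw [he, hh]; ring)))⟩
    · exfalso
      rw [he, natDegree_mul (pow_ne_zero 2 hs0) hm0, natDegree_pow, ex] at hev
      obtain ⟨i, hi⟩ := hev
      obtain ⟨j, hj⟩ := hh
      omega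

end Pool.Agent.NJ.H4
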